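import Pool.Agent.Lib.MP_0775d3_lc.QuadU.Defs
import Pool.Agent.Lib.MP_0775d3_lc.Quadric.Cell
import Pool.Agent.Lib.MP_0775d3_lc.Quadric.Normal

/-! Kernels `F (B(x, y))` on the isotropic cone `{Q = 0}`, fixed dimension. -/

set_option linter.unusedSectionVars false

namespace MP0775d3.QuadU

open Matrix MP0775d3.Sl2 MP0775d3.Kron MP0775d3.Quadric

private theorem cn_n0 (ε M : ℝ) (hε : 0 < ε) :
    ∃ n₀ : ℕ, ∀ n : ℕ, n₀ ≤ n → M ≤ (n : ℝ) ^ ε := by
  have h1 : Filter.Tendsto (fun n : ℕ => (n : ℝ) ^ ε) Filter.atTop Filter.atTop :=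
    (tendsto_rpow_atTop hε).comp tendsto_natCast_atTop_atTop
  exact Filter.eventually_atTop.1 (h1.eventually_ge_atTop M)

section

variable {k : Type} [Field k] [Fintype k] [DecidableEq k] {m : ℕ}

private theorem cn_QW (c : Fin m → kˣ) (w w' : Fin m → k) {s t : k} (hs : s ≠ 0) (ht : t ≠ 0) :
    QW c ((fun i => w i / s) - fun i => w' i / t) =
      QW c w / s ^ 2 + QW c w' / t ^ 2 - 2 * (∑ i, (c i : k) * (w i * w' i)) / (s * t) := by
  unfold QW
  rw [Finset.mul_sum, Finset.sum_div, Finset.sum_div, Finset.sum_div, ← Finset.sum_add_distrib,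
    ← Finset.sum_sub_distrib]
  refine Finset.sum_congr rfl fun i _ => ?_
  rw [Pi.sub_apply]
  field_simp
  ring

/-- The kernel on the big cell of the cone. -/
noncomputable def coneker (c : Fin m → kˣ) (F : k → ℂ) :
    Matrix (kˣ × (Fin m → k)) (kˣ × (Fin m → k)) ℂ :=
  Matrix.of fun x y => F (-QW c (x.2 - y.2) * ((y.1 : k) * ((x.1⁻¹ : kˣ) : k)))

private theorem cn_QW_add (c : Fin m → kˣ) (w w' : Fin m → k) :
    ∑ i, (c i : k) * (w i + w' i) ^ 2 =
      QW c w + QW c w' + 2 * ∑ i, (c i : k) * (w i * w' i) := by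
  unfold QW
  rw [Finset.mul_sum, ← Finset.sum_add_distrib, ← Finset.sum_add_distrib]
  refine Finset.sum_congr rfl fun i _ => ?_
  ring

variable {V : Type} [AddCommGroup V] [Module k V] [Fintype V] [DecidableEq V]
  {Q : QuadraticForm k V} {c' : Fin m → kˣ} (e : V ≃ₗ[k] (k × k × (Fin m → k))) {c : k}

/-- the second coordinate -/
private def cco (x : {x : V // Q x = c}) : k := (e (x : V)).2.1

private theorem cn_polar
    (he : ∀ x, Q x = (e x).1 * (e x).2.1 + ∑ i, (c' i : k) * (e x).2.2 i ^ 2)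
    (hc : c = 0) (x y : {x : V // Q x = c}) (hx : cco e x ≠ 0) (hy : cco e y ≠ 0) :
    QuadraticMap.polar (⇑Q) (x : V) (y : V) =
      -QW c' ((fun i => (e (x : V)).2.2 i / cco e x) - fun i => (e (y : V)).2.2 i / cco e y) *
        (cco e y * cco e x) := by
  subst hc
  have h1 : (e (x : V)).1 * cco e x + QW c' (e (x : V)).2.2 = 0 := by
    have := x.2
    rw [he] at this
    exact this
  have h2 : (e (y : V)).1 * cco e y + QW c' (e (y : V)).2.2 = 0 := by
    have := y.2
    rw [he] at this
    exact this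
  have h3 : Q ((x : V) + (y : V)) = ((e (x : V)).1 + (e (y : V)).1) * (cco e x + cco e y) +
      (QW c' (e (x : V)).2.2 + QW c' (e (y : V)).2.2 +
        2 * ∑ i, (c' i : k) * ((e (x : V)).2.2 i * (e (y : V)).2.2 i)) := by
    rw [he, map_add, ← cn_QW_add]
    rfl
  have h4 : QuadraticMap.polar (⇑Q) (x : V) (y : V) = Q ((x : V) + (y : V)) - 0 - 0 := by
    unfold QuadraticMap.polar
    rw [x.2, y.2]
  rw [h4, h3, cn_QW _ _ _ hx hy]
  generalize cco e x = s at *
  generalize cco e y = t at *
  generalize QW c' (e (x : V)).2.2 = A at *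
  generalize QW c' (e (y : V)).2.2 = B at *
  generalize (∑ i, (c' i : k) * ((e (x : V)).2.2 i * (e (y : V)).2.2 i)) = S at *
  generalize (e (x : V)).1 = x0 at *
  generalize (e (y : V)).1 = y0 at *
  have h5 : A = - (x0 * s) := by linear_combination h1
  have h6 : B = - (y0 * t) := by linear_combination h2
  rw [h5, h6]
  field_simp
  ring

/-- the coordinates on the big cell -/
private noncomputable def ccell (x : {x : {x : V // Q x = c} // cco e x ≠ 0}) :
    kˣ × (Fin m → k) :=
  (Units.mk0 ((cco e x.1)⁻¹) (inv_ne_zero x.2), fun i => (e (x.1 : V)).2.2 i / cco e x.1)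

private theorem ccell_inj
    (he : ∀ x, Q x = (e x).1 * (e x).2.1 + ∑ i, (c' i : k) * (e x).2.2 i ^ 2) :
    Function.Injective (ccell (Q := Q) (c := c) e) := by
  rintro ⟨x, hx⟩ ⟨y, hy⟩ h
  have h1 : cco e x = cco e y := by
    have h2 := congrArg (fun z => ((z.1 : kˣ) : k)) h
    simp only [ccell, Units.val_mk0] at h2
    exact inv_injective h2
  have h3 : (e (x : V)).2.2 = (e (y : V)).2.2 := by
    have h2 := congrArg (fun z => z.2) h
    simp only [ccell] at h2
    funext i
    have h4 : (e (x : V)).2.2 i / cco e x = (e (y : V)).2.2 i / cco e y := congrFun h2 i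
    rw [h1] at h4
    exact (div_left_inj' hy).1 h4
  have h5 : (e (x : V)).1 = (e (y : V)).1 := by
    have e1 := x.2
    have e2 := y.2
    rw [he] at e1 e2
    have h1' : (e (x : V)).2.1 = (e (y : V)).2.1 := h1
    rw [h1', h3] at e1
    have e3 : (e (x : V)).1 * (e (y : V)).2.1 = (e (y : V)).1 * (e (y : V)).2.1 := by
      linear_combination e1 - e2
    exact mul_right_cancel₀ hy e3
  have h6 : e (x : V) = e (y : V) := Prod.ext h5 (Prod.ext h1 h3)
  exact Subtype.ext (Subtype.ext (e.injective h6))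

/-- the size of the quadric from below -/
private theorem cn_lower
    (he : ∀ x, Q x = (e x).1 * (e x).2.1 + ∑ i, (c' i : k) * (e x).2.2 i ^ 2) :
    Fintype.card (kˣ × (Fin m → k)) ≤ Fintype.card {x : V // Q x = c} := by
  let h : kˣ × (Fin m → k) → V := fun z =>
    e.symm ((c - QW c' fun i => ((z.1⁻¹ : kˣ) : k) * z.2 i) * (z.1 : k), ((z.1⁻¹ : kˣ) : k),
      fun i => ((z.1⁻¹ : kˣ) : k) * z.2 i)
  have hQ : ∀ z, Q (h z) = c := by
    intro z
    rw [he]
    simp only [h, LinearEquiv.apply_symm_apply]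
    have h1 : (z.1 : k) * ((z.1⁻¹ : kˣ) : k) = 1 := z.1.mul_inv
    change (c - QW c' fun i => ((z.1⁻¹ : kˣ) : k) * z.2 i) * (z.1 : k) * ((z.1⁻¹ : kˣ) : k) +
      (QW c' fun i => ((z.1⁻¹ : kˣ) : k) * z.2 i) = c
    rw [mul_assoc, h1]
    ring
  refine Fintype.card_le_of_injective (fun z => (⟨h z, hQ z⟩ : {x : V // Q x = c})) ?_
  intro z z' hz
  have h1 : h z = h z' := congrArg Subtype.val hz
  have h2 := e.symm.injective h1
  have h3 := congrArg (fun w => w.2.1) h2
  have h4 := congrArg (fun w => w.2.2) h2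
  simp only at h3 h4
  have h5 : z.1 = z'.1 := inv_injective (Units.ext h3)
  refine Prod.ext h5 ?_
  funext i
  have h6 := congrFun h4 i
  simp only [h5] at h6
  exact (Units.mul_right_inj _).1 h6

/-- the complement of the big cell -/
private theorem cn_compl (hm : 1 ≤ m)
    (he : ∀ x, Q x = (e x).1 * (e x).2.1 + ∑ i, (c' i : k) * (e x).2.2 i ^ 2) :
    (({x : {x : V // Q x = c} | cco e x ≠ 0}ᶜ : Set {x : V // Q x = c}).ncard : ℝ) ≤
      2 * (Fintype.card k : ℝ) ^ m := by
  classical
  let T : Finset (k × (Fin m → k)) :=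
    Finset.univ ×ˢ (Finset.univ.filter fun w : Fin m → k => QW c' w = c)
  have hT : T.card ≤ 2 * Fintype.card k ^ m := by
    rw [Finset.card_product, Finset.card_univ]
    have h1 := card_QW hm c' c
    calc Fintype.card k * (Finset.univ.filter fun w : Fin m → k => QW c' w = c).card
        ≤ Fintype.card k * (2 * Fintype.card k ^ (m - 1)) := Nat.mul_le_mul_left _ h1
      _ = 2 * Fintype.card k ^ m := by
        obtain ⟨j, rfl⟩ : ∃ j, m = j + 1 := ⟨m - 1, by omega⟩
        rw [Nat.add_sub_cancel, pow_succ]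
        ring
  have h2 : ({x : {x : V // Q x = c} | cco e x ≠ 0}ᶜ : Set {x : V // Q x = c}).ncard ≤
      (T : Set (k × (Fin m → k))).ncard := by
    refine Set.ncard_le_ncard_of_injOn (fun x => ((e (x : V)).1, (e (x : V)).2.2)) ?_ ?_
      T.finite_toSet
    · intro x hx
      have hx' : (e (x : V)).2.1 = 0 := by
        by_contra h
        exact hx h
      have h3 := x.2
      rw [he, hx', mul_zero, zero_add] at h3
      simp only [T, Finset.coe_product, Set.mem_prod, Finset.mem_coe, Finset.mem_univ, true_and,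
        Finset.mem_filter]
      exact h3
    · intro x hx y hy hxy
      have hx' : (e (x : V)).2.1 = 0 := by
        by_contra h
        exact hx h
      have hy' : (e (y : V)).2.1 = 0 := by
        by_contra h
        exact hy h
      have h4 := congrArg Prod.fst hxy
      have h5 := congrArg Prod.snd hxy
      simp only at h4 h5
      have h6 : e (x : V) = e (y : V) := Prod.ext h4 (Prod.ext (hx'.trans hy'.symm) h5)
      exact Subtype.ext (e.injective h6)
  rw [Set.ncard_coe_finset] at h2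
  exact_mod_cast h2.trans hT

end

/-- a matrix supported on `y = ± x` -/
private theorem cn_diag {k V : Type} [Field k] [AddCommGroup V] [Module k V] {X : Type}
    [Fintype X] (v : X → V) (hv : Function.Injective v) (D : Matrix X X ℂ)
    (hD : ∀ x y, v x ≠ v y → v x ≠ -v y → D x y = 0) : RDec D 0 2 := by
  classical
  have key : ∀ (x : X) (T : Set X), (∀ y ∈ T, v y = v x ∨ v y = -v x) → T.ncard ≤ 2 := by
    intro x T hT
    have h1 : (v '' T) ⊆ {v x, -v x} := by
      rintro _ ⟨y, hy, rfl⟩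
      exact hT y hy
    have h2 : (v '' T).ncard ≤ 2 :=
      (Set.ncard_le_ncard h1 (by simp)).trans
        ((Set.ncard_insert_le _ _).trans (by rw [Set.ncard_singleton]))
    rwa [Set.ncard_image_of_injective _ hv] at h2
  refine ⟨0, D, by rw [zero_add], by simp, ?_, ?_⟩
  · intro x
    have := key x {y | D x y ≠ 0} fun y hy => by
      by_contra hcon
      push Not at hcon
      exact hy (hD x y (fun h => hcon.1 h.symm) (fun h => hcon.2 (by rw [h, neg_neg])))
    exact_mod_cast this
  · intro y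
    have := key y {x | D x y ≠ 0} fun x hx => by
      by_contra hcon
      push Not at hcon
      exact hx (hD x y hcon.1 hcon.2)
    exact_mod_cast this


/-- The kernel on the big cell of the cone is invariant under an abelian group that acts simply
transitively. -/
theorem coneker_dec (m : ℕ) (_hm : 1 ≤ m) (δ : ℝ) (hδ : 0 < δ) (_hδ1 : δ ≤ 1) :
    ∃ γ : ℝ, 0 < γ ∧ γ ≤ 1 ∧ ∃ C : ℝ, 1 ≤ C ∧
    ∀ (k : Type) [Field k] [Fintype k] [DecidableEq k] (c : Fin m → kˣ) (F : k → ℂ),
      RDec (coneker c F) (C * ((Fintype.card k : ℝ) ^ (m + 1) * (Fintype.card k : ℝ) ^ (-γ)))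
        (C * (Fintype.card k : ℝ) ^ δ) := by
  obtain ⟨γ₁, h0, n₁, H⟩ := partA (δ / (m + 1)) (by positivity)
  refine ⟨min γ₁ 1, lt_min h0 one_pos, min_le_right _ _, max 1 n₁, le_max_left _ _, ?_⟩
  intro k _ _ _ c F
  classical
  set q : ℝ := (Fintype.card k : ℝ) with hq
  have hq1 : (1 : ℝ) < q := by
    rw [hq]
    exact_mod_cast Fintype.one_lt_card (α := k)
  have hq0 : 0 < q := by linarith
  set A := kˣ × Multiplicative (Fin m → k) with hA
  have hcard : Fintype.card (kˣ × (Fin m → k)) = (Fintype.card k - 1) * Fintype.card k ^ m := by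
    rw [Fintype.card_prod, Fintype.card_units, Fintype.card_fun, Fintype.card_fin]
  set n : ℕ := Fintype.card (kˣ × (Fin m → k)) with hn
  have hnq : (n : ℝ) ≤ q ^ (m + 1) := by
    rw [hcard]
    push_cast
    rw [pow_succ, mul_comm (q ^ m)]
    refine mul_le_mul_of_nonneg_right ?_ (by positivity)
    have : ((Fintype.card k - 1 : ℕ) : ℝ) ≤ Fintype.card k := by exact_mod_cast Nat.sub_le _ _
    exact this
  have hC : (1 : ℝ) ≤ max 1 (n₁ : ℝ) := le_max_left _ _
  rcases Nat.lt_or_ge n n₁ with hlt | hge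
  · have h2 : RDec (coneker c F) 0 (n : ℝ) := rdec_of_dec (dec_triv' _)
    refine h2.mono (by positivity) ?_
    have h3 : (n : ℝ) ≤ max 1 (n₁ : ℝ) := (by exact_mod_cast hlt.le : (n : ℝ) ≤ n₁).trans
      (le_max_right _ _)
    have h4 : (1 : ℝ) ≤ q ^ δ := Real.one_le_rpow hq1.le hδ.le
    nlinarith
  · have hn1 : (1 : ℝ) ≤ n := by
      have : 0 < n := Fintype.card_pos
      exact_mod_cast this
    let en : Fin n ≃ A := (Fintype.equivFin (kˣ × (Fin m → k))).symm.trans
      (Equiv.prodCongr (Equiv.refl _) Multiplicative.ofAdd)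
    have hq1' : (Nat.card (MulAction.orbitRel.Quotient A A) : ℝ) = 1 := by
      have : Subsingleton (MulAction.orbitRel.Quotient A A) :=
        MulAction.pretransitive_iff_subsingleton_quotient A A |>.mp inferInstance
      have h5 : Nonempty (MulAction.orbitRel.Quotient A A) := ⟨Quotient.mk _ 1⟩
      have := Nat.card_eq_one_iff_unique.mpr ⟨this, h5⟩
      exact_mod_cast this
    have hAn : (Nat.card A : ℝ) = n := by
      have : Nat.card A = n := by
        rw [hn, ← Nat.card_eq_fintype_card]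
        exact Nat.card_congr (Equiv.prodCongr (Equiv.refl _) Multiplicative.toAdd)
      exact_mod_cast this
    have key := H n hge ℂ A A (fun g h => mul_comm g h)
      (by rw [hq1']; exact Real.one_le_rpow hn1 (by positivity))
      (by
        rw [hq1', hAn, mul_one]
        calc (n : ℝ) = (n : ℝ) ^ (1 : ℝ) := (Real.rpow_one _).symm
          _ ≤ _ := Real.rpow_le_rpow_of_exponent_le hn1 (by linarith))
      (fun x y => F (-QW c (x.2.toAdd - y.2.toAdd) * ((y.1 : k) * ((x.1⁻¹ : kˣ) : k))))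
      (fun g x y => by
        have e1 : (g • x).2.toAdd - (g • y).2.toAdd = x.2.toAdd - y.2.toAdd := by
          change (g.2 * x.2).toAdd - (g.2 * y.2).toAdd = _
          rw [toAdd_mul, toAdd_mul]
          abel
        have e2 : (((g • y).1 : kˣ) : k) * (((g • x).1⁻¹ : kˣ) : k) =
            (y.1 : k) * ((x.1⁻¹ : kˣ) : k) := by
          rw [← Units.val_mul, ← Units.val_mul]
          congr 1
          change g.1 * y.1 * (g.1 * x.1)⁻¹ = _
          rw [mul_inv, mul_mul_mul_comm, mul_inv_cancel, one_mul]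
        show F _ = F _
        rw [e1, e2])
      en en en.injective en.injective
    have h6 : Dec (coneker c F) ((n : ℝ) ^ (1 - γ₁)) ((n : ℝ) ^ (δ / (m + 1))) := by
      have h7 := key.submatrix_inj₂ (Fintype.equivFin (kˣ × (Fin m → k)))
        (Fintype.equivFin (kˣ × (Fin m → k))) (Equiv.injective _) (Equiv.injective _)
      have h8 : coneker c F = (Matrix.of fun i j : Fin n =>
          F (-QW c ((en i).2.toAdd - (en j).2.toAdd) *
            (((en j).1 : k) * (((en i).1⁻¹ : kˣ) : k)))).submatrix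
          (Fintype.equivFin (kˣ × (Fin m → k))) (Fintype.equivFin (kˣ × (Fin m → k))) := by
        ext x y
        have e3 : ∀ z : kˣ × (Fin m → k), en (Fintype.equivFin (kˣ × (Fin m → k)) z) =
            (z.1, Multiplicative.ofAdd z.2) := by
          intro z
          change (Equiv.prodCongr (Equiv.refl _) Multiplicative.ofAdd)
            ((Fintype.equivFin (kˣ × (Fin m → k))).symm
              (Fintype.equivFin (kˣ × (Fin m → k)) z)) = _
          rw [Equiv.symm_apply_apply]
          rfl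
        rw [Matrix.submatrix_apply, Matrix.of_apply, e3, e3]
        rfl
      rw [h8]
      exact h7
    refine (rdec_of_dec h6).mono ?_ ?_
    · set γ := min γ₁ 1 with hγ
      have hγ0 : 0 < γ := lt_min h0 one_pos
      have hγ1 : γ ≤ 1 := min_le_right _ _
      have e1 : (n : ℝ) ^ (1 - γ₁) ≤ (n : ℝ) ^ (1 - γ) :=
        Real.rpow_le_rpow_of_exponent_le hn1 (by have := min_le_left γ₁ 1; linarith)
      have e2 : (n : ℝ) ^ (1 - γ) ≤ (q ^ (m + 1)) ^ (1 - γ) :=
        Real.rpow_le_rpow (by positivity) hnq (by linarith)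
      have e3 : (q ^ (m + 1)) ^ (1 - γ) = q ^ (m + 1) * (q ^ (m + 1)) ^ (-γ) := by
        rw [sub_eq_add_neg, Real.rpow_add (by positivity), Real.rpow_one]
      have e4 : (q ^ (m + 1)) ^ (-γ) ≤ q ^ (-γ) := by
        refine Real.rpow_le_rpow_of_nonpos hq0 ?_ (by linarith)
        calc q = q ^ 1 := (pow_one q).symm
          _ ≤ q ^ (m + 1) := pow_le_pow_right₀ hq1.le (by omega)
      have e5 : q ^ (m + 1) * (q ^ (m + 1)) ^ (-γ) ≤ q ^ (m + 1) * q ^ (-γ) :=
        mul_le_mul_of_nonneg_left e4 (by positivity)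
      have e6 : 0 ≤ q ^ (m + 1) * q ^ (-γ) := by positivity
      nlinarith
    · have e1 : (n : ℝ) ^ (δ / (m + 1)) ≤ (q ^ (m + 1)) ^ (δ / (m + 1)) :=
        Real.rpow_le_rpow (by positivity) hnq (by positivity)
      have e2 : (q ^ (m + 1)) ^ (δ / (m + 1)) = q ^ δ := by
        rw [← Real.rpow_natCast, ← Real.rpow_mul hq0.le]
        congr 1
        push_cast
        field_simp
      have e3 : 0 ≤ q ^ δ := by positivity
      nlinarith

theorem cone_main (d : ℕ) (hd : 3 ≤ d) (δ : ℝ) (hδ : 0 < δ) : ∃ γ : ℝ, 0 < γ ∧ ∃ n₀ : ℕ,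
    ∀ (k : Type) [Field k] [Fintype k] [DecidableEq k] (_ : ringChar k ≠ 2)
      (V : Type) [AddCommGroup V] [Module k V] [Fintype V] [DecidableEq V]
      (Q : QuadraticForm k V) (_ : Q.polarBilin.Nondegenerate) (_ : Module.finrank k V = d)
      (c : k) (_ : c = 0), n₀ ≤ Fintype.card {x : V // Q x = c} →
      ∀ (F : k → ℂ) (K : {x : V // Q x = c} → {x : V // Q x = c} → ℂ),
      (∀ x y : {x : V // Q x = c}, (x : V) ≠ y → (x : V) ≠ -y → K x y = F (QuadraticMap.polar (⇑Q) (x : V) (y : V))) →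
      Dec (Matrix.of K) ((Fintype.card {x : V // Q x = c} : ℝ) ^ (1 - γ))
        ((Fintype.card {x : V // Q x = c} : ℝ) ^ δ) := by
  classical
  obtain ⟨γ', h0, h1, C, hC, H⟩ := coneker_dec (d - 2) (by omega) (min 1 δ) (lt_min one_pos hδ)
    (min_le_left _ _)
  have hd0 : (0 : ℝ) < d := by
    have : 0 < d := by omega
    exact_mod_cast this
  obtain ⟨n₁, hn₁⟩ := cn_n0 (γ' / (2 * d)) (2 * (C + 4)) (by positivity)
  obtain ⟨n₂, hn₂⟩ := cn_n0 (δ / 2) (2 * (C + 2)) (by positivity)
  refine ⟨γ' / (2 * d), by positivity, max (max n₁ n₂) 1, ?_⟩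
  intro k _ _ _ hk V _ _ _ _ Q hQ hfin c hc hn F K hK
  obtain ⟨m, hmd, c', e, he⟩ := normal_form hk Q hQ d hfin hd
  obtain rfl : m = d - 2 := by omega
  set n : ℕ := Fintype.card {x : V // Q x = c} with hnn
  have hN1 := hn₁ n (le_trans (le_trans (le_max_left _ _) (le_max_left _ _)) hn)
  have hN2 := hn₂ n (le_trans (le_trans (le_max_right _ _) (le_max_left _ _)) hn)
  have hN3 : (1 : ℝ) ≤ n := by
    have : 1 ≤ n := le_trans (le_max_right _ _) hn
    exact_mod_cast this
  -- the sizes
  set q : ℝ := (Fintype.card k : ℝ) with hq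
  have hq2 : 2 ≤ q := by
    have h : 1 < Fintype.card k := Fintype.one_lt_card
    rw [hq]
    exact_mod_cast h
  have hq0 : 0 < q := by linarith
  have hlow : q ^ (d - 2) * q ≤ 2 * n := by
    have h2 := cn_lower (c := c) e he
    rw [Fintype.card_prod, Fintype.card_units, Fintype.card_fun, Fintype.card_fin] at h2
    have h3 : ((Fintype.card k : ℝ) - 1) * (Fintype.card k : ℝ) ^ (d - 2) ≤ n := by
      have h4 : ((Fintype.card k - 1 : ℕ) : ℝ) = (Fintype.card k : ℝ) - 1 := by
        rw [Nat.cast_sub Fintype.card_pos, Nat.cast_one]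
      rw [← h4]
      exact_mod_cast h2
    have h5 : 0 ≤ q ^ (d - 2) := by positivity
    nlinarith
  have hup : (n : ℝ) ≤ q ^ d := by
    have h2 : n ≤ Fintype.card V := Fintype.card_subtype_le _
    have h3 : Fintype.card V = Fintype.card k ^ d := by
      rw [Module.card_eq_pow_finrank (K := k), hfin]
    rw [h3] at h2
    have h4 : (n : ℝ) ≤ ((Fintype.card k ^ d : ℕ) : ℝ) := Nat.cast_le.2 h2
    rwa [Nat.cast_pow] at h4
  -- the matrix
  set K₁ : Matrix {x : V // Q x = c} {x : V // Q x = c} ℂ := Matrix.of fun x y => F (QuadraticMap.polar (⇑Q) (x : V) (y : V))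
    with hK₁
  have hsplit : Matrix.of K = K₁ + (Matrix.of K - K₁) := by abel
  have hdiag : RDec (Matrix.of K - K₁) 0 2 := by
    refine cn_diag (k := k) (fun x : {x : V // Q x = c} => (x : V)) Subtype.val_injective _ fun x y h2 h3 => ?_
    rw [Matrix.sub_apply, hK₁, Matrix.of_apply, Matrix.of_apply, hK x y h2 h3, sub_self]
  have hcut : RDec K₁ (C * (q ^ (d - 2 + 1) * q ^ (-γ')) + 2 * q ^ (d - 2) + 2 * q ^ (d - 2))
      (C * q ^ (min 1 δ)) := by
    have hsub : RDec (K₁.submatrix (Subtype.val : {x : {x : V // Q x = c} | cco e x ≠ 0} → {x : V // Q x = c})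
        (Subtype.val : {x : {x : V // Q x = c} | cco e x ≠ 0} → {x : V // Q x = c})) (C * (q ^ (d - 2 + 1) * q ^ (-γ')))
        (C * q ^ (min 1 δ)) := by
      have h2 := H k c' F
      let inv1 : kˣ × (Fin (d - 2) → k) → kˣ × (Fin (d - 2) → k) := fun z => (z.1⁻¹, z.2)
      have hinv1 : Function.Injective inv1 := by
        intro z z' hz
        have h3 := congrArg Prod.fst hz
        have h4 := congrArg Prod.snd hz
        exact Prod.ext (inv_injective h3) h4
      have h3 := h2.submatrix (t := 1) (by positivity) zero_le_one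
        (ccell (Q := Q) (c := c) e) (fun y => inv1 (ccell (Q := Q) (c := c) e y))
        (fun z => by
          have h4 : ({x' | ccell (Q := Q) (c := c) e x' = z} : Set _).ncard ≤ 1 := by
            rw [Set.ncard_le_one_iff]
            intro a b ha hb
            exact ccell_inj e he (ha.trans hb.symm)
          exact_mod_cast h4)
        (fun z => by
          have h4 : ({x' | inv1 (ccell (Q := Q) (c := c) e x') = z} : Set _).ncard ≤ 1 := by
            rw [Set.ncard_le_one_iff]
            intro a b ha hb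
            exact ccell_inj e he (hinv1 (ha.trans hb.symm))
          exact_mod_cast h4)
      rw [one_mul] at h3
      have h4 : K₁.submatrix (Subtype.val : {x : {x : V // Q x = c} | cco e x ≠ 0} → {x : V // Q x = c})
          (Subtype.val : {x : {x : V // Q x = c} | cco e x ≠ 0} → {x : V // Q x = c}) =
          (coneker c' F).submatrix (ccell (Q := Q) (c := c) e)
            (fun y => inv1 (ccell (Q := Q) (c := c) e y)) := by
        ext x y
        rw [Matrix.submatrix_apply, Matrix.submatrix_apply, hK₁, coneker, Matrix.of_apply,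
          Matrix.of_apply, cn_polar e he hc x.1 y.1 x.2 y.2]
        congr 2
        change cco e y.1 * cco e x.1 = ((cco e y.1)⁻¹)⁻¹ * ((cco e x.1)⁻¹)⁻¹
        rw [inv_inv, inv_inv]
      rw [h4]
      exact h3
    have h5 := rdec_cut (by positivity) _ _ hsub
    have h6 := cn_compl (c := c) e (by omega) he
    refine h5.mono ?_ le_rfl
    linarith
  have hall := (hcut.add hdiag)
  rw [← hsplit] at hall
  refine (hall.mono ?_ ?_).dec
  · -- the rank
    have e1 : q ^ (d - 2) ≤ q ^ (d - 2 + 1) * q ^ (-γ') := by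
      have e2 : q ^ (-1 : ℝ) ≤ q ^ (-γ') :=
        Real.rpow_le_rpow_of_exponent_le (by linarith) (by linarith)
      rw [Real.rpow_neg_one] at e2
      calc q ^ (d - 2) = q ^ (d - 2 + 1) * q⁻¹ := by
            rw [pow_succ]
            field_simp
        _ ≤ _ := mul_le_mul_of_nonneg_left e2 (by positivity)
    have e3 : q ^ (-γ') ≤ (n : ℝ) ^ (-(γ' / d)) := by
      have e4 : (n : ℝ) ^ (1 / (d : ℝ)) ≤ q := by
        have e5 : (n : ℝ) ^ (1 / (d : ℝ)) ≤ (q ^ d) ^ (1 / (d : ℝ)) :=
          Real.rpow_le_rpow (by positivity) hup (by positivity)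
        have e6 : (q ^ d) ^ (1 / (d : ℝ)) = q := by
          rw [← Real.rpow_natCast, ← Real.rpow_mul hq0.le, mul_one_div_cancel hd0.ne',
            Real.rpow_one]
        rwa [e6] at e5
      have e7 : q ^ (-γ') ≤ ((n : ℝ) ^ (1 / (d : ℝ))) ^ (-γ') :=
        Real.rpow_le_rpow_of_nonpos (by positivity) e4 (by linarith)
      rw [← Real.rpow_mul (by positivity)] at e7
      rwa [show 1 / (d : ℝ) * -γ' = -(γ' / d) by ring] at e7
    have e8 : q ^ (d - 2 + 1) ≤ 2 * n := by
      rw [pow_succ]
      exact hlow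
    have e9 : q ^ (d - 2 + 1) * q ^ (-γ') ≤ 2 * n * (n : ℝ) ^ (-(γ' / d)) :=
      mul_le_mul e8 e3 (by positivity) (by positivity)
    have e10 : (n : ℝ) ^ (1 - γ' / (2 * d)) =
        n * (n : ℝ) ^ (-(γ' / d)) * (n : ℝ) ^ (γ' / (2 * d)) := by
      rw [mul_assoc, ← Real.rpow_add (by linarith), ← Real.rpow_one_add' (by positivity)]
      · congr 1
        field_simp
        ring
      · have e11 : γ' / (2 * (d : ℝ)) < 1 := by
          rw [div_lt_one (by positivity)]
          have : (3 : ℝ) ≤ d := by exact_mod_cast hd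
          linarith
        have e12 : 1 + (-(γ' / (d : ℝ)) + γ' / (2 * d)) = 1 - γ' / (2 * d) := by
          field_simp
          ring
        rw [e12]
        linarith
    rw [e10]
    have e13 : 0 ≤ (n : ℝ) * (n : ℝ) ^ (-(γ' / d)) := by positivity
    calc C * (q ^ (d - 2 + 1) * q ^ (-γ')) + 2 * q ^ (d - 2) + 2 * q ^ (d - 2) + 0
        ≤ (C + 4) * (q ^ (d - 2 + 1) * q ^ (-γ')) := by linarith
      _ ≤ (C + 4) * (2 * n * (n : ℝ) ^ (-(γ' / d))) :=
          mul_le_mul_of_nonneg_left e9 (by linarith)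
      _ = n * (n : ℝ) ^ (-(γ' / d)) * (2 * (C + 4)) := by ring
      _ ≤ _ := mul_le_mul_of_nonneg_left hN1 e13
  · -- the sparse part
    have e1 : q * q ≤ 2 * n := by
      have e2 : q ≤ q ^ (d - 2) := by
        calc q = q ^ 1 := (pow_one q).symm
          _ ≤ q ^ (d - 2) := pow_le_pow_right₀ (by linarith) (by omega)
      nlinarith
    have e3 : q ^ (min 1 δ) ≤ 2 * (n : ℝ) ^ (δ / 2) := by
      have e4 : q ^ (min 1 δ) = (q * q) ^ (min 1 δ / 2) := by
        rw [← sq, ← Real.rpow_natCast, ← Real.rpow_mul hq0.le]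
        congr 1
        push_cast
        ring
      rw [e4]
      have hδ1 : 0 < min 1 δ := lt_min one_pos hδ
      calc (q * q) ^ (min 1 δ / 2) ≤ (2 * (n : ℝ)) ^ (min 1 δ / 2) :=
            Real.rpow_le_rpow (by positivity) e1 (by positivity)
        _ = (2 : ℝ) ^ (min 1 δ / 2) * (n : ℝ) ^ (min 1 δ / 2) :=
            Real.mul_rpow (by norm_num) (by positivity)
        _ ≤ 2 * (n : ℝ) ^ (δ / 2) := by
            refine mul_le_mul ?_ ?_ (by positivity) (by norm_num)
            · calc (2 : ℝ) ^ (min 1 δ / 2) ≤ (2 : ℝ) ^ (1 : ℝ) :=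
                  Real.rpow_le_rpow_of_exponent_le (by norm_num)
                    (by have := min_le_left 1 δ; linarith)
                _ = 2 := Real.rpow_one 2
            · exact Real.rpow_le_rpow_of_exponent_le hN3
                (by have := min_le_right 1 δ; linarith)
    have e5 : 1 ≤ (n : ℝ) ^ (δ / 2) := Real.one_le_rpow hN3 (by positivity)
    have e6 : (n : ℝ) ^ δ = (n : ℝ) ^ (δ / 2) * (n : ℝ) ^ (δ / 2) := by
      rw [← Real.rpow_add (by linarith)]
      congr 1
      ring
    have e7 : (n : ℝ) ^ (δ / 2) * (2 * (C + 2)) ≤ (n : ℝ) ^ (δ / 2) * (n : ℝ) ^ (δ / 2) :=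
      mul_le_mul_of_nonneg_left hN2 (by positivity)
    have e8 : C * q ^ (min 1 δ) ≤ C * (2 * (n : ℝ) ^ (δ / 2)) :=
      mul_le_mul_of_nonneg_left e3 (by linarith)
    rw [e6]
    nlinarith

end MP0775d3.QuadU
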