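import Pool.Agent.Lib.MP_0775d3_lc.QuadU.Defs
import Pool.Agent.Lib.MP_0775d3_lc.Quadric.Normal
import Pool.Agent.Lib.MP_0775d3_lc.Quadric.Defs

/-! The polar form in hyperbolic coordinates. -/

set_option linter.unusedSectionVars false

namespace MP0775d3.QuadU

open Matrix MP0775d3.Kron MP0775d3.Quadric

private theorem coord_aux {k : Type} [Field k] [Fintype k] [DecidableEq k] (hk : ringChar k ≠ 2)
    {V : Type} [AddCommGroup V] [Module k V] [Fintype V] [DecidableEq V]
    (Q : QuadraticForm k V) {m : ℕ} (c' : Fin m → kˣ) (e : V ≃ₗ[k] (k × k × (Fin m → k)))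
    (he : ∀ x, Q x = (e x).1 * (e x).2.1 + ∑ i, (c' i : k) * (e x).2.2 i ^ 2) (c : k) :
    ∃ (a : Fin (m + 2) → kˣ) (u v : {x : V // Q x = c} → Fin (m + 2) → k),
      Function.Injective u ∧ Function.Injective v ∧
      (∀ x y : {x : V // Q x = c},
        QuadraticMap.polar (⇑Q) (x : V) (y : V) = bil a (u x) (v y)) ∧
      (Fintype.card k - 1) * Fintype.card k ^ m ≤ Fintype.card {x : V // Q x = c} := by
  have h2 : (2 : k) ≠ 0 := Ring.two_ne_zero hk
  refine ⟨Fin.cons 1 (Fin.cons 1 fun i => Units.mk0 2 h2 * c' i),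
    fun x => Fin.cons (e (x : V)).1 (Fin.cons (e (x : V)).2.1 (e (x : V)).2.2),
    fun x => Fin.cons (e (x : V)).2.1 (Fin.cons (e (x : V)).1 (e (x : V)).2.2), ?_, ?_, ?_, ?_⟩
  · intro x y h
    simp only at h
    have h3 := Fin.cons_injective2 h
    have h4 := Fin.cons_injective2 h3.2
    exact Subtype.ext (e.injective (Prod.ext h3.1 (Prod.ext h4.1 h4.2)))
  · intro x y h
    simp only at h
    have h3 := Fin.cons_injective2 h
    have h4 := Fin.cons_injective2 h3.2
    exact Subtype.ext (e.injective (Prod.ext h4.1 (Prod.ext h3.1 h4.2)))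
  · intro x y
    have h3 : ∑ i, (c' i : k) * ((e (x : V)).2.2 i + (e (y : V)).2.2 i) ^ 2 =
        ∑ i, (c' i : k) * (e (x : V)).2.2 i ^ 2 + ∑ i, (c' i : k) * (e (y : V)).2.2 i ^ 2 +
          ∑ i, 2 * (c' i : k) * ((e (x : V)).2.2 i * (e (y : V)).2.2 i) := by
      rw [← Finset.sum_add_distrib, ← Finset.sum_add_distrib]
      refine Finset.sum_congr rfl fun i _ => ?_
      ring
    have h4 : Q ((x : V) + (y : V)) = ((e (x : V)).1 + (e (y : V)).1) *
        ((e (x : V)).2.1 + (e (y : V)).2.1) +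
        ∑ i, (c' i : k) * ((e (x : V)).2.2 i + (e (y : V)).2.2 i) ^ 2 := by
      rw [he, map_add]
      rfl
    have h5 : bil (Fin.cons 1 (Fin.cons 1 fun i => Units.mk0 2 h2 * c' i))
        (Fin.cons (e (x : V)).1 (Fin.cons (e (x : V)).2.1 (e (x : V)).2.2))
        (Fin.cons (e (y : V)).2.1 (Fin.cons (e (y : V)).1 (e (y : V)).2.2)) =
        (e (x : V)).1 * (e (y : V)).2.1 + ((e (x : V)).2.1 * (e (y : V)).1 +
          ∑ i, 2 * (c' i : k) * ((e (x : V)).2.2 i * (e (y : V)).2.2 i)) := by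
      unfold bil
      rw [Fin.sum_univ_succ, Fin.sum_univ_succ]
      simp only [Fin.cons_zero, Fin.cons_succ, Units.val_one, one_mul, Units.val_mul,
        Units.val_mk0]
    change QuadraticMap.polar (⇑Q) (x : V) (y : V) = bil _ _ _
    rw [h5]
    unfold QuadraticMap.polar
    rw [h4, h3, he (x : V), he (y : V)]
    ring
  · let h : kˣ × (Fin m → k) → V := fun z =>
      e.symm ((c - QW c' fun i => ((z.1⁻¹ : kˣ) : k) * z.2 i) * (z.1 : k), ((z.1⁻¹ : kˣ) : k),
        fun i => ((z.1⁻¹ : kˣ) : k) * z.2 i)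
    have hQ : ∀ z, Q (h z) = c := by
      intro z
      rw [he]
      simp only [h, LinearEquiv.apply_symm_apply]
      have h1 : (z.1 : k) * ((z.1⁻¹ : kˣ) : k) = 1 := z.1.mul_inv
      change (c - QW c' fun i => ((z.1⁻¹ : kˣ) : k) * z.2 i) * (z.1 : k) * ((z.1⁻¹ : kˣ) : k) +
        (QW c' fun i => ((z.1⁻¹ : kˣ) : k) * z.2 i) = c
      rw [mul_assoc, h1]
      ring
    have h1 : Fintype.card (kˣ × (Fin m → k)) ≤ Fintype.card {x : V // Q x = c} := by
      refine Fintype.card_le_of_injective (fun z => (⟨h z, hQ z⟩ : {x : V // Q x = c})) ?_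
      intro z z' hz
      have h1 : h z = h z' := congrArg Subtype.val hz
      have h2 := e.symm.injective h1
      have h3 := congrArg (fun w => w.2.1) h2
      have h4 := congrArg (fun w => w.2.2) h2
      simp only at h3 h4
      have h5 : z.1 = z'.1 := inv_injective (Units.ext h3)
      refine Prod.ext h5 ?_
      funext i
      have h6 := congrFun h4 i
      simp only [h5] at h6
      exact (Units.mul_right_inj _).1 h6
    rwa [Fintype.card_prod, Fintype.card_units, Fintype.card_fun, Fintype.card_fin] at h1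

theorem coord (k : Type) [Field k] [Fintype k] [DecidableEq k] (hk : ringChar k ≠ 2)
    (V : Type) [AddCommGroup V] [Module k V] [Fintype V] [DecidableEq V]
    (Q : QuadraticForm k V) (hQ : Q.polarBilin.Nondegenerate) (d : ℕ)
    (hd : Module.finrank k V = d) (hd3 : 3 ≤ d) (c : k) :
    ∃ (a : Fin d → kˣ) (u v : {x : V // Q x = c} → Fin d → k),
      Function.Injective u ∧ Function.Injective v ∧
      (∀ x y : {x : V // Q x = c}, QuadraticMap.polar (⇑Q) (x : V) (y : V) = bil a (u x) (v y)) ∧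
      (Fintype.card k - 1) * Fintype.card k ^ (d - 2) ≤ Fintype.card {x : V // Q x = c} := by
  obtain ⟨m, rfl, c', e, he⟩ := normal_form hk Q hQ d hd hd3
  exact coord_aux hk Q c' e he c

end MP0775d3.QuadU
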