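import Pool.Agent.Lib.MP_0775d3_lc.Kron.Final

/-! Kernels `F (∑ aᵢ uᵢ vᵢ)` over finite fields, any dimension. -/

set_option linter.unusedSectionVars false

namespace MP0775d3.QuadU

open Matrix MP0775d3.Kron

variable {k : Type} [Field k] {d : ℕ}

/-- The diagonal bilinear form `∑ aᵢ uᵢ vᵢ`. -/
def bil (a : Fin d → kˣ) (u v : Fin d → k) : k := ∑ i, (a i : k) * (u i * v i)

end MP0775d3.QuadU
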