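import Pool.Agent.Lib.MP_0775d3_lc.QuadU.Defs

/-! Large fields: the torus `(kˣ) ^ d` acts on `k ^ d` with `2 ^ d` orbits. -/

set_option linter.unusedSectionVars false

namespace MP0775d3.QuadU

open Matrix MP0775d3.Kron

private theorem orbits_le (k : Type) [Field k] [Fintype k] (d : ℕ) :
    Nat.card (MulAction.orbitRel.Quotient (Fin d → kˣ) (Fin d → k)) ≤ 2 ^ d := by
  classical
  have h1 : Nat.card (Fin d → Bool) = 2 ^ d := by simp
  rw [← h1]
  refine Nat.card_le_card_of_surjective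
    (fun s : Fin d → Bool => (Quotient.mk (MulAction.orbitRel (Fin d → kˣ) (Fin d → k))
      (fun i => if s i = true then (1 : k) else 0) :
        MulAction.orbitRel.Quotient (Fin d → kˣ) (Fin d → k))) ?_
  intro x
  obtain ⟨u, rfl⟩ := Quotient.exists_rep x
  refine ⟨fun i => decide (u i ≠ 0), ?_⟩
  apply Quotient.sound
  show (MulAction.orbitRel (Fin d → kˣ) (Fin d → k)) _ _
  rw [MulAction.orbitRel_apply]
  refine ⟨fun i => if h : u i = 0 then 1 else Units.mk0 (u i)⁻¹ (inv_ne_zero h), ?_⟩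
  funext i
  show (if h : u i = 0 then (1 : kˣ) else Units.mk0 (u i)⁻¹ (inv_ne_zero h)) • u i = _
  by_cases h : u i = 0
  · simp [h]
  · simp [h, Units.smul_def]

private theorem card_pow (k : Type) [Field k] [Fintype k] (d : ℕ) :
    (Nat.card (Fin d → kˣ) : ℝ) ≤ (Fintype.card k : ℝ) ^ d := by
  classical
  have h1 : Nat.card (Fin d → kˣ) = (Nat.card kˣ) ^ d := by
    rw [Nat.card_fun]
    simp
  have h2 : Nat.card kˣ ≤ Fintype.card k := by
    rw [← Nat.card_eq_fintype_card]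
    exact Nat.card_le_card_of_injective _ Units.val_injective
  rw [h1]
  push_cast
  exact pow_le_pow_left₀ (by positivity) (by exact_mod_cast h2) d

/-- The two inequalities, in logarithms. -/
private theorem numbers (δ γ : ℝ) (hδ : 0 < δ) (hγ : 0 < γ) (q d n : ℕ) (hq : 2 ≤ q)
    (hq1 : 6 * Real.log 2 / δ ≤ Real.log q)
    (hq2 : 2 * (3 + γ) * Real.log 2 / γ ≤ Real.log q) (hd : 3 ≤ d) (hd1 : 2 / γ ≤ d - 1)
    (hn : (q - 1) * q ^ (d - 2) ≤ n) :
    (2 : ℝ) ^ d ≤ (n : ℝ) ^ (δ / 2) ∧ (q : ℝ) ^ d * 2 ^ d ≤ (n : ℝ) ^ (1 + γ) := by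
  have hl : 0 < Real.log 2 := Real.log_pos one_lt_two
  have hq0 : (0 : ℝ) < q := by
    have : 0 < q := by omega
    exact_mod_cast this
  have hq2' : (2 : ℝ) ≤ q := by exact_mod_cast hq
  have hL : 0 ≤ Real.log q := Real.log_nonneg (by linarith)
  have hqn : q ^ (d - 2) ≤ n :=
    le_trans (Nat.le_mul_of_pos_left _ (by omega)) hn
  have hn0 : (0 : ℝ) < n := by
    have h1 : 0 < n := lt_of_lt_of_le (pow_pos (by omega) _) hqn
    exact_mod_cast h1
  have hdr : (3 : ℝ) ≤ d := by exact_mod_cast hd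
  have h1 : ((d : ℝ) - 2) * Real.log q ≤ Real.log n := by
    have h2 : (q : ℝ) ^ (d - 2) ≤ n := by exact_mod_cast hqn
    have h3 := Real.log_le_log (by positivity) h2
    rw [Real.log_pow, Nat.cast_sub (by omega)] at h3
    push_cast at h3
    exact h3
  have h2 : ((d : ℝ) - 1) * Real.log q - Real.log 2 ≤ Real.log n := by
    have h3 : q ^ (d - 1) ≤ 2 * n := by
      have h4 : q ^ (d - 1) = q * q ^ (d - 2) := by
        rw [← pow_succ']
        congr 1
        omega
      rw [h4]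
      have h5 : q ≤ 2 * (q - 1) := by omega
      calc q * q ^ (d - 2) ≤ 2 * (q - 1) * q ^ (d - 2) := Nat.mul_le_mul_right _ h5
        _ = 2 * ((q - 1) * q ^ (d - 2)) := by ring
        _ ≤ 2 * n := Nat.mul_le_mul_left _ hn
    have h4 : (q : ℝ) ^ (d - 1) ≤ 2 * n := by exact_mod_cast h3
    have h5 := Real.log_le_log (by positivity) h4
    rw [Real.log_pow, Nat.cast_sub (by omega), Real.log_mul (by norm_num) hn0.ne'] at h5
    push_cast at h5
    linarith
  constructor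
  · rw [← Real.log_le_log_iff (by positivity) (by positivity), Real.log_pow,
      Real.log_rpow hn0]
    have h3 : 6 * Real.log 2 ≤ Real.log q * δ := (div_le_iff₀ hδ).mp hq1
    have h4 : δ / 2 * (((d : ℝ) - 2) * Real.log q) ≤ δ / 2 * Real.log n :=
      mul_le_mul_of_nonneg_left h1 (by positivity)
    have h5 : ((d : ℝ) - 2) * (6 * Real.log 2) ≤ (d - 2) * (Real.log q * δ) :=
      mul_le_mul_of_nonneg_left h3 (by linarith)
    have h6 : 0 ≤ ((d : ℝ) - 3) * Real.log 2 := mul_nonneg (by linarith) hl.le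
    nlinarith
  · rw [← Real.log_le_log_iff (by positivity) (by positivity),
      Real.log_mul (by positivity) (by positivity), Real.log_pow, Real.log_pow,
      Real.log_rpow hn0]
    have h3 : 2 * (3 + γ) * Real.log 2 ≤ Real.log q * γ := (div_le_iff₀ hγ).mp hq2
    have h4 : 2 ≤ ((d : ℝ) - 1) * γ := (div_le_iff₀ hγ).mp hd1
    have h5 : (1 + γ) * (((d : ℝ) - 1) * Real.log q - Real.log 2) ≤ (1 + γ) * Real.log n :=
      mul_le_mul_of_nonneg_left h2 (by positivity)
    have h6 : ((d : ℝ) - 1) * (2 * (3 + γ) * Real.log 2) ≤ (d - 1) * (Real.log q * γ) :=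
      mul_le_mul_of_nonneg_left h3 (by linarith)
    have h7 : 2 * Real.log q ≤ ((d : ℝ) - 1) * γ * Real.log q :=
      mul_le_mul_of_nonneg_right h4 hL
    have h8 : 0 ≤ ((d : ℝ) - 2) * Real.log 2 := mul_nonneg (by linarith) hl.le
    have h9 : 0 ≤ ((d : ℝ) - 2) * Real.log 2 * γ := mul_nonneg h8 hγ.le
    nlinarith

/- PROOF. `obtain ⟨γ₁, _, n₁, hA⟩ := partA δ hδ` (Kron/Final.lean), `γ := min γ₁ 1`
(`partA` is used with `γ₁`; `n ^ (1 - γ₁) ≤ n ^ (1 - γ)`).
Group `A := Fin d → kˣ`, acting on `Y := Fin d → k` by `(g • u) i = g i * u i` (Mathlib: `Pi.mulAction'`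
or define the action by hand with `MulAction` structure inside the proof).
Kernel `K u v := F (∑ i, a i * (u i * (v i)⁻¹))` with `0⁻¹ = 0`: `K (g • u) (g • v) = K u v`.
Rows: `u ∘ equiv`, columns: `fun j => fun i => (v (equiv j) i)⁻¹`, injective since `inv_inv`.
Orbits: `Nat.card (orbitRel.Quotient A Y) ≤ 2 ^ d`: the map `Y → (Fin d → Bool)`,
`u ↦ (decide (u i = 0))` separates orbits (if `u i = 0 ↔ v i = 0` then `g i = v i / u i` or `1`).
Numbers, `q = card k`, `n = card X`, `(q - 1) q ^ (d - 2) ≤ n` so `q ^ (d - 2) ≤ n` and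
`q ^ (d - 1) ≤ 2 n`:
* `2 ^ d ≤ n ^ (δ / 2)` if `d ≥ 3`, `q ^ (δ / 2) ≥ 8` (`d ≤ 3 (d - 2)`).
* `(q - 1) ^ d * 2 ^ d ≤ (2 q) ^ d ≤ (q ^ (d - 1) / 2) ^ (1 + γ₁) ≤ n ^ (1 + γ₁)` if
  `d - 1 ≥ 2 / γ₁` and `log q` is large in terms of `γ₁` (take logarithms).
`Dec` on `X` follows from `Dec` on `Fin n` by `Dec.submatrix_inj₂` (or `Dec.submatrix`) along
`Fintype.equivFin X`. -/
theorem large (δ : ℝ) (hδ : 0 < δ) : ∃ γ : ℝ, 0 < γ ∧ ∃ q₀ d₀ n₀ : ℕ, 3 ≤ d₀ ∧
    ∀ (k : Type) [Field k] [Fintype k] [DecidableEq k], q₀ ≤ Fintype.card k →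
    ∀ (d : ℕ), d₀ ≤ d → ∀ (a : Fin d → kˣ) (E : Type) [Field E] (F : k → E)
      (X : Type) [Fintype X] [DecidableEq X] (u v : X → Fin d → k),
      Function.Injective u → Function.Injective v →
      (Fintype.card k - 1) * Fintype.card k ^ (d - 2) ≤ Fintype.card X → n₀ ≤ Fintype.card X →
      Dec (Matrix.of fun x y => F (bil a (u x) (v y))) ((Fintype.card X : ℝ) ^ (1 - γ))
        ((Fintype.card X : ℝ) ^ δ) := by
  obtain ⟨γ, hγ, n₁, hA⟩ := partA.{0, 0} δ hδ
  obtain ⟨q₁, hq₁⟩ := exists_nat_ge (Real.exp (6 * Real.log 2 / δ))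
  obtain ⟨q₂, hq₂⟩ := exists_nat_ge (Real.exp (2 * (3 + γ) * Real.log 2 / γ))
  obtain ⟨d₁, hd₁⟩ := exists_nat_ge (2 / γ + 1)
  refine ⟨γ, hγ, max 2 (max q₁ q₂), max 3 d₁, n₁, le_max_left _ _, ?_⟩
  intro k _ _ _ hq d hd a E _ F X _ _ u v hu hv hn hn₁
  have hq2 : 2 ≤ Fintype.card k := (le_max_left _ _).trans hq
  have hq0 : (0 : ℝ) < Fintype.card k := by
    have : 0 < Fintype.card k := by omega
    exact_mod_cast this
  have e1 : 6 * Real.log 2 / δ ≤ Real.log (Fintype.card k) := by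
    rw [Real.le_log_iff_exp_le hq0]
    refine hq₁.trans ?_
    exact_mod_cast ((le_max_left _ _).trans (le_max_right _ _)).trans hq
  have e2 : 2 * (3 + γ) * Real.log 2 / γ ≤ Real.log (Fintype.card k) := by
    rw [Real.le_log_iff_exp_le hq0]
    refine hq₂.trans ?_
    exact_mod_cast ((le_max_right _ _).trans (le_max_right _ _)).trans hq
  have e3 : 2 / γ ≤ (d : ℝ) - 1 := by
    have h1 : (d₁ : ℝ) ≤ d := by exact_mod_cast (le_max_right _ _).trans hd
    linarith
  obtain ⟨g1, g2⟩ := numbers δ γ hδ hγ (Fintype.card k) d (Fintype.card X) hq2 e1 e2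
    ((le_max_left _ _).trans hd) e3 hn
  have hor : (Nat.card (MulAction.orbitRel.Quotient (Fin d → kˣ) (Fin d → k)) : ℝ) ≤ 2 ^ d := by
    exact_mod_cast orbits_le k d
  let e := Fintype.equivFin X
  have key := hA (Fintype.card X) hn₁ E (Fin d → kˣ) (Fin d → k) (fun g h => mul_comm g h)
    (hor.trans g1)
    (le_trans (mul_le_mul (card_pow k d) hor (by positivity) (by positivity)) g2)
    (fun x y => F (∑ i, (a i : k) * (x i * (y i)⁻¹))) ?_ (fun i => u (e.symm i))
    (fun j i => (v (e.symm j) i)⁻¹) (hu.comp e.symm.injective) ?_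
  · have h1 := Dec.submatrix key e e
    have h2 : (Matrix.of fun i j => (fun x y : Fin d → k => F (∑ i, (a i : k) * (x i * (y i)⁻¹)))
        ((fun i => u (e.symm i)) i) ((fun j i => (v (e.symm j) i)⁻¹) j)).submatrix e e =
        Matrix.of fun x y => F (bil a (u x) (v y)) := by
      ext x y
      simp [bil]
    rw [h2] at h1
    exact h1
  · intro g x y
    show F (∑ i, (a i : k) * ((g • x) i * ((g • y) i)⁻¹)) = F (∑ i, (a i : k) * (x i * (y i)⁻¹))
    congr 1
    refine Finset.sum_congr rfl fun i _ => ?_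
    have h1 : (g • x) i = (g i : k) * x i := rfl
    have h2 : (g • y) i = (g i : k) * y i := rfl
    rw [h1, h2, mul_inv]
    have h3 : (g i : k) ≠ 0 := (g i).ne_zero
    field_simp
  · intro i j hij
    apply e.symm.injective
    apply hv
    funext l
    exact inv_injective (congrFun hij l)

end MP0775d3.QuadU
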