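import Pool.Agent.Lib.MP_0775d3_lc.QuadU.Defs

/-! Bounded fields: additive characters and Kronecker products. -/

set_option linter.unusedSectionVars false

namespace MP0775d3.QuadU

open Matrix MP0775d3.Kron

section
variable {F : Type*} [Field F] {X : Type*} [Fintype X] [DecidableEq X]

private theorem small_smul {A : Matrix X X F} {r s : ℝ} (c : F) (h : Dec A r s) :
    Dec (c • A) r s := by
  obtain ⟨R, S, rfl, h2, h3⟩ := h
  refine ⟨c • R, c • S, smul_add c R S, ?_, ?_, ?_⟩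
  · refine le_trans ?_ h2
    have e : c • R = (c • (1 : Matrix X X F)) * R := by rw [Matrix.smul_mul, Matrix.one_mul]
    rw [e]
    exact_mod_cast Matrix.rank_mul_le_right _ _
  · intro x
    refine le_trans ?_ (h3.1 x)
    have : ({y | (c • S) x y ≠ 0} : Set X).ncard ≤ ({y | S x y ≠ 0} : Set X).ncard := by
      refine Set.ncard_le_ncard (fun y hy => ?_) (Set.toFinite _)
      intro h0
      apply hy
      rw [Matrix.smul_apply, h0, smul_zero]
    exact_mod_cast this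
  · intro y
    refine le_trans ?_ (h3.2 y)
    have : ({x | (c • S) x y ≠ 0} : Set X).ncard ≤ ({x | S x y ≠ 0} : Set X).ncard := by
      refine Set.ncard_le_ncard (fun x hx => ?_) (Set.toFinite _)
      intro h0
      apply hx
      rw [Matrix.smul_apply, h0, smul_zero]
    exact_mod_cast this

private theorem small_sum {κ : Type*} [Fintype κ] (A : κ → Matrix X X F) {r s : ℝ}
    (h : ∀ j, Dec (A j) r s) : Dec (∑ j, A j) (Fintype.card κ * r) (Fintype.card κ * s) := by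
  choose R S h1 h2 h3 using h
  refine ⟨∑ j, R j, ∑ j, S j, ?_, ?_, ?_⟩
  · rw [← Finset.sum_add_distrib]
    exact Finset.sum_congr rfl fun j _ => h1 j
  · exact rank_sum_le Finset.univ R r (fun j _ => h2 j)
  · exact sparse_sum Finset.univ S s (fun j _ => h3 j)

end

private theorem small_char {k ι : Type*} [Field k] (ψ : AddChar k ℂ) (s : Finset ι) (f : ι → k) :
    ψ (∑ i ∈ s, f i) = ∏ i ∈ s, ψ (f i) := by
  classical
  induction s using Finset.induction_on with
  | empty => simp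
  | insert i s hi ih =>
    rw [Finset.sum_insert hi, Finset.prod_insert hi, AddChar.map_add_eq_mul, ih]

/-- The expansion of the kernel in additive characters. -/
private theorem small_expand {k : Type} [Field k] [Fintype k] {d : ℕ} (a : Fin d → kˣ)
    (F : k → ℂ) {X : Type} (u v : X → Fin d → k) :
    (Matrix.of fun x y => F (bil a (u x) (v y)) : Matrix X X ℂ) =
      ∑ ψ : AddChar k ℂ, (AddChar.complexBasis k).repr F ψ •
        (kron (fun i => (Matrix.of fun s t => ψ (a i * (s * t)) : Matrix k k ℂ))).submatrix u v := by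
  ext x y
  rw [Matrix.sum_apply]
  have h1 := congr_fun ((AddChar.complexBasis k).sum_repr F) (bil a (u x) (v y))
  rw [Matrix.of_apply, ← h1, Fintype.sum_apply]
  refine Finset.sum_congr rfl fun ψ _ => ?_
  rw [Pi.smul_apply, AddChar.complexBasis_apply, Matrix.smul_apply, Matrix.submatrix_apply]
  congr 1
  unfold bil kron
  rw [small_char]
  rfl

/-- The decomposition with explicit numbers. -/
private theorem small_dec (δ : ℝ) (hδ : 0 < δ) (hδ1 : δ ≤ 1) (N : ℕ) (hN : 128 ≤ δ * 2 ^ N)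
    (k : Type) [Field k] [Fintype k] [DecidableEq k] (d : ℕ) (hd : 3 ≤ d) (a : Fin d → kˣ)
    (F : k → ℂ) (X : Type) [Fintype X] [DecidableEq X] (u v : X → Fin d → k)
    (hu : Function.Injective u) (hv : Function.Injective v) :
    Dec (Matrix.of fun x y => F (bil a (u x) (v y)))
      (Fintype.card k * (128 * Real.exp (-((δ / (256 * (N + 1))) ^ 2 * d)) *
        (Fintype.card k : ℝ) ^ d))
      (Fintype.card k * (((Fintype.card k : ℝ) ^ d) ^ δ)) := by
  have hq : 1 < Fintype.card k := Fintype.one_lt_card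
  have hqr : (1 : ℝ) < Fintype.card k := by exact_mod_cast hq
  have hlog : 0 < Real.log (Fintype.card k) := Real.log_pos hqr
  have hd0 : (0 : ℝ) < d := by exact_mod_cast (by omega : 0 < d)
  have hΛ : logSize (fun _ : Fin d => k) = d * Real.log (Fintype.card k) := by
    unfold logSize
    rw [Finset.sum_const, Finset.card_univ, Fintype.card_fin, nsmul_eq_mul]
  rw [small_expand a F u v]
  have key : ∀ ψ : AddChar k ℂ, Dec ((AddChar.complexBasis k).repr F ψ •
        (kron (fun i => (Matrix.of fun s t => ψ (a i * (s * t)) : Matrix k k ℂ))).submatrix u v)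
      (128 * Real.exp (-((δ / (256 * (N + 1))) ^ 2 * d)) * (Fintype.card k : ℝ) ^ d)
      (((Fintype.card k : ℝ) ^ d) ^ δ) := by
    intro ψ
    apply small_smul
    have h1 := dec_kron (fun i : Fin d => (Matrix.of fun s t => ψ (a i * (s * t)) : Matrix k k ℂ))
      (1 / (d : ℝ)) (by positivity) δ N hδ hδ1 hN (by rw [hΛ]; positivity)
      (by intro i; rw [hΛ]; rw [← mul_assoc, one_div, inv_mul_cancel₀ hd0.ne', one_mul])
    refine (h1.submatrix_inj₂ u v hu hv).mono (le_of_eq ?_) (le_of_eq ?_)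
    · rw [Fintype.card_fun, Fintype.card_fin, div_div_eq_mul_div, div_one]
      push_cast
      rfl
    · rw [hΛ, Real.rpow_def_of_pos (by positivity), Real.log_pow]
      congr 1
      ring
  have h2 := small_sum _ key
  rwa [AddChar.card_eq] at h2

theorem small (δ : ℝ) (hδ : 0 < δ) (q₀ : ℕ) : ∃ γ : ℝ, 0 < γ ∧ ∃ n₀ : ℕ,
    ∀ (k : Type) [Field k] [Fintype k] [DecidableEq k], Fintype.card k ≤ q₀ →
    ∀ (d : ℕ), 3 ≤ d → ∀ (a : Fin d → kˣ) (F : k → ℂ)
      (X : Type) [Fintype X] [DecidableEq X] (u v : X → Fin d → k),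
      Function.Injective u → Function.Injective v →
      (Fintype.card k - 1) * Fintype.card k ^ (d - 2) ≤ Fintype.card X → n₀ ≤ Fintype.card X →
      Dec (Matrix.of fun x y => F (bil a (u x) (v y))) ((Fintype.card X : ℝ) ^ (1 - γ))
        ((Fintype.card X : ℝ) ^ δ) := by
  obtain ⟨δ₁, hδ₁, hδ₁1, hδ₁δ⟩ : ∃ δ₁ : ℝ, 0 < δ₁ ∧ δ₁ ≤ 1 ∧ δ₁ ≤ δ :=
    ⟨min δ 1, lt_min hδ one_pos, min_le_right _ _, min_le_left _ _⟩
  obtain ⟨Q, hQ2, hQq⟩ : ∃ Q : ℝ, 2 ≤ Q ∧ (q₀ : ℝ) ≤ Q := ⟨max 2 q₀, le_max_left _ _, le_max_right _ _⟩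
  set δ' : ℝ := δ₁ / 4 with hδ'
  have hδ'0 : 0 < δ' := by positivity
  have hδ'1 : δ' ≤ 1 := by rw [hδ']; linarith
  obtain ⟨N, hN⟩ : ∃ N : ℕ, 128 / δ' < 2 ^ N := pow_unbounded_of_one_lt _ (by norm_num)
  have hN' : 128 ≤ δ' * 2 ^ N := by
    rw [div_lt_iff₀ hδ'0] at hN
    linarith
  set c : ℝ := (δ' / (256 * (N + 1))) ^ 2 with hc
  have hc0 : 0 < c := by positivity
  have hlogQ : 0 < Real.log Q := Real.log_pos (by linarith)
  set γ : ℝ := c / (2 * Real.log Q) with hγ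
  have hγ0 : 0 < γ := by positivity
  have ev1 : ∀ᶠ n : ℕ in Filter.atTop, 256 * Q ^ 2 ≤ (n : ℝ) ^ γ :=
    ((tendsto_rpow_atTop hγ0).comp tendsto_natCast_atTop_atTop).eventually_ge_atTop (256 * Q ^ 2)
  have ev2 : ∀ᶠ n : ℕ in Filter.atTop, 2 * Q ^ 2 ≤ (n : ℝ) ^ (δ₁ - δ') :=
    ((tendsto_rpow_atTop (by rw [hδ']; linarith)).comp
      tendsto_natCast_atTop_atTop).eventually_ge_atTop (2 * Q ^ 2)
  obtain ⟨n₀, hn₀⟩ := Filter.eventually_atTop.mp ((ev1.and ev2).and (Filter.eventually_ge_atTop 1))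
  refine ⟨γ, hγ0, n₀, ?_⟩
  intro k _ _ _ hkq d hd a F X _ _ u v hu hv hX hXn
  obtain ⟨⟨h1, h2⟩, h3⟩ := hn₀ _ hXn
  have hmain := small_dec δ' hδ'0 hδ'1 N hN' k d hd a F X u v hu hv
  set n : ℕ := Fintype.card X with hn
  set q : ℕ := Fintype.card k with hq
  have hq2 : 2 ≤ q := Fintype.one_lt_card
  have hn1 : (1 : ℝ) ≤ n := by exact_mod_cast h3
  have hn0 : (0 : ℝ) < n := by linarith
  have hq2r : (2 : ℝ) ≤ q := by exact_mod_cast hq2
  have hqQ : (q : ℝ) ≤ Q := le_trans (by exact_mod_cast hkq) hQq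
  -- q ^ d ≤ 2 Q n
  have hqd : (q : ℝ) ^ d ≤ 2 * Q * n := by
    obtain ⟨e, rfl⟩ : ∃ e, d = e + 2 := ⟨d - 2, by omega⟩
    have hX' : ((q : ℝ) - 1) * (q : ℝ) ^ e ≤ n := by
      have h4 : (q - 1) * q ^ e ≤ n := by simpa using hX
      have h5 : (((q - 1 : ℕ) : ℝ)) * (q : ℝ) ^ e ≤ n := by exact_mod_cast h4
      rwa [Nat.cast_sub (by omega), Nat.cast_one] at h5
    have hqe : (0 : ℝ) < (q : ℝ) ^ e := by positivity
    have h6 : (q : ℝ) * (q : ℝ) ^ e ≤ 2 * n := by nlinarith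
    calc (q : ℝ) ^ (e + 2) = q * (q * (q : ℝ) ^ e) := by ring
      _ ≤ q * (2 * n) := mul_le_mul_of_nonneg_left h6 (by linarith)
      _ ≤ Q * (2 * n) := mul_le_mul_of_nonneg_right hqQ (by linarith)
      _ = 2 * Q * n := by ring
  -- n ≤ Q ^ d
  have hnQ : (n : ℝ) ≤ Q ^ d := by
    have h4 : n ≤ q ^ d := by
      have := Fintype.card_le_of_injective u hu
      rwa [Fintype.card_fun, Fintype.card_fin] at this
    calc (n : ℝ) ≤ (q : ℝ) ^ d := by exact_mod_cast h4
      _ ≤ Q ^ d := pow_le_pow_left₀ (by linarith) hqQ d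
  have hexp : (Q ^ d) ^ γ = Real.exp (c * d / 2) := by
    rw [Real.rpow_def_of_pos (by positivity), Real.log_pow]
    congr 1
    rw [hγ]
    field_simp
  have hng : (n : ℝ) ^ γ ≤ Real.exp (c * d / 2) := by
    rw [← hexp]
    exact Real.rpow_le_rpow hn0.le hnQ hγ0.le
  refine hmain.mono ?_ ?_
  · -- rank
    have e1 : (n : ℝ) ^ (1 - γ) = n / (n : ℝ) ^ γ := by
      rw [Real.rpow_sub hn0, Real.rpow_one]
    have e2 : Real.exp (-(c * d)) = 1 / (Real.exp (c * d / 2) * Real.exp (c * d / 2)) := by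
      rw [← Real.exp_add, one_div, ← Real.exp_neg]
      congr 1
      ring
    have hng0 : 0 < (n : ℝ) ^ γ := Real.rpow_pos_of_pos hn0 _
    have hE := Real.exp_pos (c * d / 2)
    rw [e1, e2, le_div_iff₀ hng0]
    have hprod : 256 * Q ^ 2 * (n : ℝ) ^ γ ≤ Real.exp (c * d / 2) * Real.exp (c * d / 2) :=
      mul_le_mul (h1.trans hng) hng hng0.le hE.le
    have hqdQ : (q : ℝ) * (q : ℝ) ^ d ≤ Q * (2 * Q * n) :=
      mul_le_mul hqQ hqd (by positivity) (by linarith)
    calc (q : ℝ) * (128 * (1 / (Real.exp (c * d / 2) * Real.exp (c * d / 2))) * (q : ℝ) ^ d) *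
          (n : ℝ) ^ γ
        = (q * (q : ℝ) ^ d) * (128 * (n : ℝ) ^ γ) /
            (Real.exp (c * d / 2) * Real.exp (c * d / 2)) := by
          field_simp
      _ ≤ (Q * (2 * Q * n)) * (128 * (n : ℝ) ^ γ) /
            (Real.exp (c * d / 2) * Real.exp (c * d / 2)) := by
          gcongr
      _ = n * (256 * Q ^ 2 * (n : ℝ) ^ γ / (Real.exp (c * d / 2) * Real.exp (c * d / 2))) := by
          ring
      _ ≤ n * 1 := by
          refine mul_le_mul_of_nonneg_left ?_ hn0.le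
          rw [div_le_one (by positivity)]
          exact hprod
      _ = n := mul_one _
  · -- sparsity
    have e1 : (n : ℝ) ^ δ₁ = (n : ℝ) ^ (δ₁ - δ') * (n : ℝ) ^ δ' := by
      rw [← Real.rpow_add hn0]
      congr 1
      ring
    have e2 : (n : ℝ) ^ δ₁ ≤ (n : ℝ) ^ δ := Real.rpow_le_rpow_of_exponent_le hn1 hδ₁δ
    refine le_trans ?_ e2
    rw [e1]
    have e3 : (2 * Q : ℝ) ^ δ' ≤ 2 * Q := by
      calc (2 * Q : ℝ) ^ δ' ≤ (2 * Q) ^ (1 : ℝ) :=
            Real.rpow_le_rpow_of_exponent_le (by linarith) hδ'1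
        _ = 2 * Q := Real.rpow_one _
    have hn'0 : 0 < (n : ℝ) ^ δ' := Real.rpow_pos_of_pos hn0 _
    calc (q : ℝ) * ((q : ℝ) ^ d) ^ δ' ≤ Q * (2 * Q * n) ^ δ' := by
          refine mul_le_mul hqQ ?_ (by positivity) (by linarith)
          exact Real.rpow_le_rpow (by positivity) hqd hδ'0.le
      _ = Q * ((2 * Q) ^ δ' * (n : ℝ) ^ δ') := by
          rw [Real.mul_rpow (by linarith) hn0.le]
      _ ≤ Q * (2 * Q * (n : ℝ) ^ δ') := by gcongr
      _ = 2 * Q ^ 2 * (n : ℝ) ^ δ' := by ring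
      _ ≤ (n : ℝ) ^ (δ₁ - δ') * (n : ℝ) ^ δ' := mul_le_mul_of_nonneg_right h2 hn'0.le

end MP0775d3.QuadU
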