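import Pool.Agent.Lib.MP_0775d3_lc.QuadU.Large
import Pool.Agent.Lib.MP_0775d3_lc.QuadU.Small
import Pool.Agent.Lib.MP_0775d3_lc.QuadU.Coord
import Pool.Agent.Lib.MP_0775d3_lc.QuadU.Cone
import Pool.Agent.Lib.MP_0775d3_lc.Quadric.Main
import Pool.Agent.Lib.MP_0775d3_lc.Sl2.Real

/-! Matrices invariant under the orthogonal group on a quadric, any dimension. -/

set_option linter.unusedSectionVars false

namespace MP0775d3.QuadU

open Matrix MP0775d3.Kron MP0775d3.Quadric MP0775d3.Sl2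

private theorem mu_diag {k V : Type} [Field k] [AddCommGroup V] [Module k V] {X : Type}
    [Fintype X] (v : X → V) (hv : Function.Injective v) (D : Matrix X X ℂ)
    (hD : ∀ x y, v x ≠ v y → v x ≠ -v y → D x y = 0) : RDec D 0 2 := by
  classical
  have key : ∀ (x : X) (T : Set X), (∀ y ∈ T, v y = v x ∨ v y = -v x) → T.ncard ≤ 2 := by
    intro x T hT
    have h1 : (v '' T) ⊆ {v x, -v x} := by
      rintro _ ⟨y, hy, rfl⟩
      exact hT y hy
    have h2 : (v '' T).ncard ≤ 2 :=
      (Set.ncard_le_ncard h1 (by simp)).trans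
        ((Set.ncard_insert_le _ _).trans (by rw [Set.ncard_singleton]))
    rwa [Set.ncard_image_of_injective _ hv] at h2
  refine ⟨0, D, by rw [zero_add], by simp, ?_, ?_⟩
  · intro x
    have := key x {y | D x y ≠ 0} fun y hy => by
      by_contra hcon
      push Not at hcon
      exact hy (hD x y (fun h => hcon.1 h.symm) (fun h => hcon.2 (by rw [h, neg_neg])))
    exact_mod_cast this
  · intro y
    have := key y {x | D x y ≠ 0} fun x hx => by
      by_contra hcon
      push Not at hcon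
      exact hx (hD x y hcon.1 hcon.2)
    exact_mod_cast this

/-- The statement for one dimension. -/
def Stm (δ γ : ℝ) (n₀ d : ℕ) : Prop :=
    ∀ (k : Type) [Field k] [Fintype k] [DecidableEq k] (_ : ringChar k ≠ 2)
      (V : Type) [AddCommGroup V] [Module k V] [Fintype V] [DecidableEq V]
      (Q : QuadraticForm k V) (_ : Q.polarBilin.Nondegenerate) (_ : Module.finrank k V = d)
      (c : k), n₀ ≤ Fintype.card {x : V // Q x = c} →
      ∀ (F : k → ℂ) (K : {x : V // Q x = c} → {x : V // Q x = c} → ℂ),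
      (∀ x y : {x : V // Q x = c}, (x : V) ≠ y → (x : V) ≠ -y → K x y = F (QuadraticMap.polar (⇑Q) (x : V) (y : V))) →
      Dec (Matrix.of K) ((Fintype.card {x : V // Q x = c} : ℝ) ^ (1 - γ))
        ((Fintype.card {x : V // Q x = c} : ℝ) ^ δ)

theorem Stm.mono {δ γ γ' : ℝ} {n₀ n₀' d : ℕ} (h : Stm δ γ n₀ d) (hγ : γ' ≤ γ) (hn : n₀ ≤ n₀')
    (h1 : 1 ≤ n₀') : Stm δ γ' n₀' d := by
  intro k _ _ _ hk V _ _ _ _ Q hQ hd c hX F K hK
  refine (h k hk V Q hQ hd c (hn.trans hX) F K hK).mono ?_ le_rfl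
  have h2 : (1 : ℝ) ≤ Fintype.card {x : V // Q x = c} := by exact_mod_cast h1.trans hX
  exact Real.rpow_le_rpow_of_exponent_le h2 (by linarith)

theorem stm_small (δ : ℝ) (hδ : 0 < δ) (D : ℕ) : ∃ γ : ℝ, 0 < γ ∧ ∃ n₀ : ℕ,
    ∀ d, 3 ≤ d → d < D → Stm δ γ n₀ d := by
  induction D with
  | zero => exact ⟨1, one_pos, 0, fun d _ h => absurd h (Nat.not_lt_zero d)⟩
  | succ D ih =>
    obtain ⟨γ, hγ, n₀, h⟩ := ih
    rcases Nat.lt_or_ge D 3 with hD | hD
    · exact ⟨γ, hγ, n₀, fun d h3 h4 => h d h3 (by omega)⟩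
    · obtain ⟨γ', hγ', n₀', h'⟩ := quadric_main D hD δ hδ
      obtain ⟨γ'', hγ'', n₀'', h''⟩ := cone_main D hD δ hδ
      refine ⟨min γ (min γ' γ''), lt_min hγ (lt_min hγ' hγ''),
        max n₀ (max n₀' (max n₀'' 1)), fun d h3 h4 => ?_⟩
      rcases Nat.lt_or_ge d D with h5 | h5
      · exact (h d h3 h5).mono (min_le_left _ _) (le_max_left _ _)
          ((le_max_right _ _).trans ((le_max_right _ _).trans (le_max_right _ _)))
      · obtain rfl : d = D := by omega
        intro k _ _ _ hk V _ _ _ _ Q hQ hd c hX F K hK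
        have h2 : (1 : ℝ) ≤ Fintype.card {x : V // Q x = c} := by
          have : 1 ≤ Fintype.card {x : V // Q x = c} :=
            ((le_max_right _ _).trans ((le_max_right _ _).trans (le_max_right _ _))).trans hX
          exact_mod_cast this
        by_cases hc : c = 0
        · refine (h'' k hk V Q hQ hd c hc (((le_max_left _ _).trans
            ((le_max_right _ _).trans (le_max_right _ _))).trans hX) F K hK).mono ?_ le_rfl
          exact Real.rpow_le_rpow_of_exponent_le h2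
            (by have := (min_le_right γ (min γ' γ'')).trans (min_le_right _ _); linarith)
        · refine (h' k hk V Q hQ hd c hc (((le_max_left _ _).trans
            (le_max_right _ _)).trans hX) F K hK).mono ?_ le_rfl
          exact Real.rpow_le_rpow_of_exponent_le h2
            (by have := (min_le_right γ (min γ' γ'')).trans (min_le_left _ _); linarith)

private theorem mu_n0 (ε M : ℝ) (hε : 0 < ε) :
    ∃ n₀ : ℕ, ∀ n : ℕ, n₀ ≤ n → M ≤ (n : ℝ) ^ ε := by
  have h1 : Filter.Tendsto (fun n : ℕ => (n : ℝ) ^ ε) Filter.atTop Filter.atTop :=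
    (tendsto_rpow_atTop hε).comp tendsto_natCast_atTop_atTop
  exact Filter.eventually_atTop.1 (h1.eventually_ge_atTop M)

theorem stm_all (δ : ℝ) (hδ : 0 < δ) : ∃ γ : ℝ, 0 < γ ∧ ∃ n₀ : ℕ,
    ∀ d, 3 ≤ d → Stm δ γ n₀ d := by
  classical
  obtain ⟨γ₁, hγ₁, q₀, d₀, n₁, hd₀, H1⟩ := large (δ / 2) (by positivity)
  obtain ⟨γ₂, hγ₂, n₂, H2⟩ := small (δ / 2) (by positivity) q₀
  obtain ⟨γ₃, hγ₃, n₃, H3⟩ := stm_small δ hδ d₀
  obtain ⟨n₄, hn₄⟩ := mu_n0 (δ / 2) 2 (by positivity)
  refine ⟨min γ₁ (min γ₂ γ₃), lt_min hγ₁ (lt_min hγ₂ hγ₃), max (max n₁ n₂) (max n₃ (max n₄ 1)),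
    fun d hd => ?_⟩
  rcases Nat.lt_or_ge d d₀ with h | h
  · exact (H3 d hd h).mono ((min_le_right _ _).trans (min_le_right _ _))
      ((le_max_left _ _).trans (le_max_right _ _))
      ((le_max_right _ _).trans ((le_max_right _ _).trans (le_max_right _ _)))
  · intro k _ _ _ hk V _ _ _ _ Q hQ hfin c hX F K hK
    obtain ⟨a, u, v, hu, hv, huv, hcard⟩ := coord k hk V Q hQ d hfin hd c
    have m1 : n₁ ≤ Fintype.card {x : V // Q x = c} :=
      ((le_max_left _ _).trans (le_max_left _ _)).trans hX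
    have m2 : n₂ ≤ Fintype.card {x : V // Q x = c} :=
      ((le_max_right _ _).trans (le_max_left _ _)).trans hX
    have m4 : n₄ ≤ Fintype.card {x : V // Q x = c} :=
      (((le_max_left _ _).trans (le_max_right _ _)).trans (le_max_right _ _)).trans hX
    have m5 : 1 ≤ Fintype.card {x : V // Q x = c} :=
      (((le_max_right _ _).trans (le_max_right _ _)).trans (le_max_right _ _)).trans hX
    set n : ℝ := (Fintype.card {x : V // Q x = c} : ℝ) with hn
    have hn1 : (1 : ℝ) ≤ n := by rw [hn]; exact_mod_cast m5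
    have hdec : Dec (Matrix.of fun x y : {x : V // Q x = c} => F (bil a (u x) (v y)))
        (n ^ (1 - min γ₁ (min γ₂ γ₃))) (n ^ (δ / 2)) := by
      rcases le_total (Fintype.card k) q₀ with hq | hq
      · refine (H2 k hq d hd a F {x : V // Q x = c} u v hu hv hcard m2).mono ?_ le_rfl
        exact Real.rpow_le_rpow_of_exponent_le hn1
          (by have := (min_le_right γ₁ (min γ₂ γ₃)).trans (min_le_left γ₂ γ₃); linarith)
      · refine (H1 k hq d h a ℂ F {x : V // Q x = c} u v hu hv hcard m1).mono ?_ le_rfl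
        exact Real.rpow_le_rpow_of_exponent_le hn1
          (by have := min_le_left γ₁ (min γ₂ γ₃); linarith)
    have hdiag : RDec (Matrix.of K -
        Matrix.of fun x y : {x : V // Q x = c} => F (bil a (u x) (v y))) 0 2 := by
      refine mu_diag (k := k) (fun x : {x : V // Q x = c} => (x : V)) Subtype.val_injective _
        fun x y h2 h3 => ?_
      rw [Matrix.sub_apply, Matrix.of_apply, Matrix.of_apply, hK x y h2 h3, huv, sub_self]
    have hall := (rdec_of_dec hdec).add hdiag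
    rw [add_sub_cancel] at hall
    refine (hall.mono (le_of_eq (add_zero _)) ?_).dec
    have h2 := hn₄ _ m4
    rw [← hn] at h2
    have h3 : n ^ δ = n ^ (δ / 2) * n ^ (δ / 2) := by
      rw [← Real.rpow_add (by linarith)]
      congr 1
      ring
    rw [h3]
    nlinarith

theorem main_complex (δ : ℝ) (hδ : 0 < δ) : ∃ γ : ℝ, 0 < γ ∧ ∃ n₀ : ℕ,
    ∀ (k : Type) [Field k] [Fintype k] [DecidableEq k] (_ : ringChar k ≠ 2)
      (V : Type) [AddCommGroup V] [Module k V] [Fintype V] [DecidableEq V]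
      (Q : QuadraticForm k V) (_ : Q.polarBilin.Nondegenerate) (_ : 3 ≤ Module.finrank k V)
      (c : k), n₀ ≤ Fintype.card {x : V // Q x = c} →
      ∀ (F : k → ℂ) (K : {x : V // Q x = c} → {x : V // Q x = c} → ℂ),
      (∀ x y : {x : V // Q x = c}, (x : V) ≠ y → (x : V) ≠ -y → K x y = F (QuadraticMap.polar (⇑Q) (x : V) (y : V))) →
      Dec (Matrix.of K) ((Fintype.card {x : V // Q x = c} : ℝ) ^ (1 - γ))
        ((Fintype.card {x : V // Q x = c} : ℝ) ^ δ) := by
  obtain ⟨γ, hγ, n₀, h⟩ := stm_all δ hδ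
  exact ⟨γ, hγ, n₀, fun k _ _ _ hk V _ _ _ _ Q hQ hd c hX F K hK =>
    h _ hd k hk V Q hQ rfl c hX F K hK⟩

end MP0775d3.QuadU
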