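import Pool.Agent.Lib.MP_0775d3_lc.QuadU.Main

/-! The statement over `ℝ` and `ℂ`, with named definitions. -/

set_option linter.unusedSectionVars false

namespace MP0775d3.QuadU

open Matrix MP0775d3.Kron MP0775d3.Sl2

section

variable {k V E : Type} [Field k] [AddCommGroup V] [Module k V]

/-- The points of the quadric `{Q = c}`. -/
def Pts (Q : QuadraticForm k V) (c : k) : Type := {x : V // Q x = c}

/-- Only `x = 0` is orthogonal to all vectors. -/
def IsNondeg (Q : QuadraticForm k V) : Prop := ∀ x : V, (∀ y : V, Q (x + y) = Q x + Q y) → x = 0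

/-- The entry `K x y` of a matrix indexed by the points of the quadric `{Q = c}` is a function of
`Q (x + y) - Q x - Q y`, except possibly for `y = ± x`. -/
def IsPolarKernel (Q : QuadraticForm k V) (c : k) (K : Matrix (Pts Q c) (Pts Q c) E) : Prop :=
  ∃ f : k → E, ∀ x y : Pts Q c, x.1 ≠ y.1 → x.1 ≠ -y.1 →
    K x y = f (Q (x.1 + y.1) - Q x.1 - Q y.1)

theorem IsNondeg.nondegenerate {Q : QuadraticForm k V} (h : IsNondeg Q) :
    Q.polarBilin.Nondegenerate := by
  have h1 : ∀ x : V, (∀ y : V, Q.polarBilin x y = 0) → x = 0 := by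
    intro x hx
    refine h x fun y => ?_
    have h2 : Q (x + y) - Q x - Q y = 0 := hx y
    linear_combination h2
  refine ⟨h1, fun x hx => h1 x fun y => ?_⟩
  have h2 : Q.polarBilin y x = 0 := hx y
  have h3 : Q (y + x) - Q y - Q x = 0 := h2
  change Q (x + y) - Q x - Q y = 0
  rw [add_comm x y]
  linear_combination h3

end

theorem main_statement (δ : ℝ) (hδ : 0 < δ) : ∃ γ : ℝ, 0 < γ ∧ ∃ n₀ : ℕ,
    ∀ (k : Type) [Field k] [Finite k], ringChar k ≠ 2 →
    ∀ (V : Type) [AddCommGroup V] [Module k V] (Q : QuadraticForm k V),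
      3 ≤ Module.finrank k V → IsNondeg Q →
    ∀ (c : k) [Fintype (Pts Q c)], n₀ ≤ Fintype.card (Pts Q c) →
    ∀ (E : Type) [RCLike E] (K : Matrix (Pts Q c) (Pts Q c) E), IsPolarKernel Q c K →
      Dec K ((Fintype.card (Pts Q c) : ℝ) ^ (1 - γ)) ((Fintype.card (Pts Q c) : ℝ) ^ δ) := by
  classical
  obtain ⟨γ, hγ, n₁, h₁⟩ := main_complex δ hδ
  obtain ⟨n₂, hn₂⟩ : ∃ n₂ : ℕ, (2 : ℝ) ^ (2 / γ) ≤ n₂ := exists_nat_ge _
  refine ⟨γ / 2, by positivity, max n₁ (max n₂ 1), ?_⟩
  rintro k _ _ hk V _ _ Q hd hQ' c instX hn E _ K ⟨f, hf⟩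
  have hQ := hQ'.nondegenerate
  have : Fintype k := Fintype.ofFinite k
  have : Module.Finite k V := Module.finite_of_finrank_pos (by omega)
  have : Finite V := Module.finite_of_finite k
  have : Fintype V := Fintype.ofFinite V
  have hcard : Fintype.card (Pts Q c) = Fintype.card {x : V // Q x = c} :=
    Fintype.card_congr (Equiv.refl _)
  rw [hcard] at hn ⊢
  have hn1 : n₁ ≤ Fintype.card {x : V // Q x = c} := (le_max_left _ _).trans hn
  have hn2 : n₂ ≤ Fintype.card {x : V // Q x = c} :=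
    (le_max_left _ _).trans ((le_max_right _ _).trans hn)
  have hn3 : 1 ≤ Fintype.card {x : V // Q x = c} :=
    (le_max_right _ _).trans ((le_max_right _ _).trans hn)
  set n : ℝ := (Fintype.card {x : V // Q x = c} : ℝ) with hndef
  have hn0 : 0 < n := by
    have : 0 < Fintype.card {x : V // Q x = c} := hn3
    rw [hndef]
    exact_mod_cast this
  have h2 : (2 : ℝ) ≤ n ^ (γ / 2) := by
    have h3 : (2 : ℝ) ^ (2 / γ) ≤ n := hn₂.trans (by rw [hndef]; exact_mod_cast hn2)
    have h4 : ((2 : ℝ) ^ (2 / γ)) ^ (γ / 2) ≤ n ^ (γ / 2) :=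
      Real.rpow_le_rpow (by positivity) h3 (by positivity)
    rw [← Real.rpow_mul (by norm_num)] at h4
    have h5 : 2 / γ * (γ / 2) = 1 := by field_simp
    rwa [h5, Real.rpow_one] at h4
  have key := h₁ k hk V Q hQ hd c hn1
    (fun t => ((RCLike.re (f t) : ℝ) : ℂ) + ((RCLike.im (f t) : ℝ) : ℂ) * Complex.I)
    (fun x y => ((RCLike.re (K x y) : ℝ) : ℂ) + ((RCLike.im (K x y) : ℝ) : ℂ) * Complex.I)
    (fun x y hx hy => by
      simp only [hf x y hx hy]
      rfl)
  have h3 : Dec (K.map fun z =>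
      ((RCLike.re z : ℝ) : ℂ) + ((RCLike.im z : ℝ) : ℂ) * Complex.I) (n ^ (1 - γ)) (n ^ δ) := by
    obtain ⟨R, S, e1, e2, e3⟩ := key
    refine ⟨R, S, e1, ?_, e3⟩
    have hinst : instX = (Subtype.fintype (fun x : V => Q x = c) : Fintype (Pts Q c)) :=
      Subsingleton.elim _ _
    subst hinst
    exact e2
  refine (dec_rclike _ (by positivity) h3).mono ?_ le_rfl
  calc 2 * n ^ (1 - γ) ≤ n ^ (γ / 2) * n ^ (1 - γ) :=
        mul_le_mul_of_nonneg_right h2 (by positivity)
    _ = n ^ (1 - γ / 2) := by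
        rw [← Real.rpow_add hn0]
        congr 1
        ring

end MP0775d3.QuadU
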